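import Pool.Agent.L0h7.SS.Stm
import Pool.Agent.L0h7.KN.MAIN

/-! # Idempotents with small supports: assembly -/

set_option autoImplicit false

open CategoryTheory

noncomputable section

namespace Pool.Agent.L0h7.SS

open Pool.Agent.Y75.NK Pool.Agent.L0h7.KN

/-- a homomorphism which factors through another one -/
theorem induced_comp (R : Type) [Ring R] (m : ℕ) {G P Q : GrpCat.{0}} (σ : P ⟶ Q) (π : Q ⟶ G)
    (e : Idem (MonoidAlgebra R ((EF m).obj G))) (h : Induced R m (σ ≫ π) e) :
    Induced R m π e := by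
  obtain ⟨x, hx⟩ := h
  refine ⟨((gr R ⋙ Kneg m).map σ).hom x, ?_⟩
  rw [← hx, (gr R ⋙ Kneg m).map_comp]
  rfl

theorem induced_free (R : Type) [Ring R] (m : ℕ) {n : ℕ} {G : GrpCat.{0}} (t : Fin n → G)
    (h : ∀ i j, t i * t j = t j * t i → i = j) (e : Idem (MonoidAlgebra R ((EF m).obj G)))
    (hI : Induced R m (raagMap t) e) :
    Induced R m (GrpCat.ofHom (FreeGroup.lift t) : fm n ⟶ G) e := by
  have h1 : ∀ w ∈ comRels t, (𝟙 (fm n) : fm n ⟶ fm n).hom w = 1 := by
    rintro w ⟨i, j, hij, rfl⟩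
    obtain rfl := h i j hij
    exact mul_inv_cancel _
  apply induced_comp R m (fromPG (𝟙 (fm n)) (comRels t) h1)
  have h2 : fromPG (𝟙 (fm n)) (comRels t) h1 ≫ (GrpCat.ofHom (FreeGroup.lift t) : fm n ⟶ G) =
      raagMap t := by
    apply GrpCat.hom_ext
    apply MonoidHom.ext
    intro x
    induction x using QuotientGroup.induction_on
    rfl
  rw [h2]
  exact hI

/-- the third part -/
def S_THREE : Prop :=
  ∀ (R : Type) [Ring R] (m : ℕ) (G : GrpCat.{0}), TFr G → ∀ (x y : G)
    (e : Idem (MonoidAlgebra R ((EF m).obj G))), SuppIn {1, x, y} e →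
    ((x * y = y * x ∨ x ^ 2 = y ^ 2) ∧ Induced R m
      (GrpCat.ofHom (Subgroup.closure {x, y}).subtype :
        GrpCat.of (Subgroup.closure {x, y} : Subgroup G) ⟶ G) e) ∨
    Induced R m (GrpCat.ofHom (FreeGroup.lift ![x, y]) : fm 2 ⟶ G) e

theorem t_THREE (hRAG : ∀ (R : Type) [Ring R] (m n : ℕ) (G : GrpCat.{0}) (t : Fin n → G),
      OnlyCommutations t → ∀ e : Idem (MonoidAlgebra R ((EF m).obj G)),
      SuppIn (insert 1 (Set.range t)) e → Induced R m (raagMap t) e)
    (hSUBG : ∀ (R : Type) [Ring R] (m : ℕ) (G : GrpCat.{0}) (H : Subgroup G)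
      (e : Idem (MonoidAlgebra R ((EF m).obj G))), SuppIn (H : Set G) e →
      Induced R m (GrpCat.ofHom H.subtype : GrpCat.of H ⟶ G) e)
    (hTWO : S_TWO) : S_THREE := by
  intro R _ m G hG x y e he
  have hsub : SuppIn ((Subgroup.closure {x, y} : Subgroup G) : Set G) e := by
    intro i j z hz
    rcases he i j z hz with h | h | h
    · rw [h]
      exact one_mem _
    · rw [h]
      exact Subgroup.subset_closure (by simp)
    · rw [h]
      exact Subgroup.subset_closure (by simp)
  rcases hTWO G hG ![x, y] with h | h | ⟨h, h'⟩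
  · exact Or.inl ⟨Or.inl h, hSUBG R m G _ e hsub⟩
  · exact Or.inl ⟨Or.inr h, hSUBG R m G _ e hsub⟩
  · right
    have h1 : SuppIn (insert 1 (Set.range ![x, y])) e := by
      intro i j z hz
      rcases he i j z hz with h | h | h
      · exact Or.inl h
      · exact Or.inr ⟨0, h.symm⟩
      · exact Or.inr ⟨1, h.symm⟩
    refine induced_free R m ![x, y] ?_ e (hRAG R m 2 G ![x, y] h e h1)
    intro i j hij
    fin_cases i <;> fin_cases j
    · rfl
    · exact absurd hij h'
    · exact absurd hij.symm h'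
    · rfl

end Pool.Agent.L0h7.SS
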