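import Pool.Agent.L0h6.KN.MNO

/-! # Idempotents with small supports and negative `K`-groups: definitions and statements -/

set_option autoImplicit false

open CategoryTheory

noncomputable section

namespace Pool.Agent.L0h7.SS

open Pool.Agent.Y75.NK Pool.Agent.L0h7.KN

/-- the entries of `e` involve only elements of `ℤᵐ × T` -/
def SuppIn {R : Type} [Ring R] {m : ℕ} {G : GrpCat.{0}} (T : Set G)
    (e : Idem (MonoidAlgebra R ((EF m).obj G))) : Prop :=
  ∀ i j, ∀ z ∈ (e.e i j).coeff.support, prj m G z ∈ T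

/-- `kclass e` is in the image of `K_{-m}(R[P])` for the homomorphism `π : P → G` -/
def Induced (R : Type) [Ring R] (m : ℕ) {G P : GrpCat.{0}} (π : P ⟶ G)
    (e : Idem (MonoidAlgebra R ((EF m).obj G))) : Prop :=
  ∃ x : (Kneg m).obj ((gr R).obj P), ((gr R ⋙ Kneg m).map π).hom x = kclass R m G e

/-- PUSH: let `φ : G → P` be a map which is multiplicative on `T` and let `π : P → G` be a
homomorphism with `π (φ t) = t` for `t ∈ T`. Then the class of an idempotent matrix with entries
supported on `ℤᵐ × T` comes from `P`.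

Sketch. By induction on `m` there is a map `Φ : ℤᵐ × G → ℤᵐ × P` over `φ`
(`prj (Φ z) = φ (prj z)`) which is multiplicative on the elements `z` with `prj z ∈ T` and satisfies
`π_* (Φ z) = z` for these `z` (for `m + 1`: apply the induction hypothesis to
`ℤ × G`, `(a, g) ↦ (a, φ g)`, `ℤ × T`). The matrix `e'` obtained from `e` by applying `Φ` to the
group elements (`Finsupp.mapDomain`) satisfies `e' e' = Φ_* (e e) = Φ_* (e) = e'` and has image `e`
in `G`. Use `Pool.Agent.L0h6.KN.kclass_nat`. -/
def S_PUSH : Prop :=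
  ∀ (R : Type) [Ring R] (m : ℕ) (G P : GrpCat.{0}) (T : Set G) (φ : G → P) (π : P ⟶ G),
    (∀ a ∈ T, ∀ b ∈ T, φ (a * b) = φ a * φ b) → (∀ t ∈ T, π.hom (φ t) = t) →
    ∀ e : Idem (MonoidAlgebra R ((EF m).obj G)), SuppIn T e → Induced R m π e

/-- the relations of the multiplication table of `T` -/
def tblRels {G : GrpCat.{0}} (T : Set G) : Set (FreeGroup T) :=
  {w | ∃ a b c d : T, (a : G) * b = c * d ∧
      w = FreeGroup.of a * FreeGroup.of b * (FreeGroup.of c * FreeGroup.of d)⁻¹} ∪
    {w | ∃ a : T, (a : G) = 1 ∧ w = FreeGroup.of a}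

/-- the group with the generators `[t]`, `t ∈ T`, and the relations `[a] [b] = [c] [d]` if
`a b = c d`, and `[1] = 1` -/
abbrev Tbl {G : GrpCat.{0}} (T : Set G) : GrpCat.{0} :=
  GrpCat.of (FreeGroup T ⧸ Subgroup.normalClosure (tblRels T))

/-- the homomorphism `[t] ↦ t` -/
def tblMap {G : GrpCat.{0}} (T : Set G) : Tbl T ⟶ G :=
  GrpCat.ofHom (QuotientGroup.lift (Subgroup.normalClosure (tblRels T))
    (FreeGroup.lift (fun t : T => (t : G)))
    (Subgroup.normalClosure_le_normal (N := (FreeGroup.lift (fun t : T => (t : G))).ker) (by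
      rintro w (⟨a, b, c, d, h, rfl⟩ | ⟨a, h, rfl⟩)
      · rw [SetLike.mem_coe, MonoidHom.mem_ker]
        simp [h]
      · rw [SetLike.mem_coe, MonoidHom.mem_ker]
        simp [h])))

/-- TBL: a class with support in `T`, `1 ∈ T`, comes from the group of the multiplication table of
`T`. (`φ g = [a] [b]` for some `a, b ∈ T` with `g = a b`, and `φ g = 1` if there are none.) -/
def S_TBL : Prop := S_PUSH →
  ∀ (R : Type) [Ring R] (m : ℕ) (G : GrpCat.{0}) (T : Set G), (1 : G) ∈ T →
    ∀ e : Idem (MonoidAlgebra R ((EF m).obj G)), SuppIn T e → Induced R m (tblMap T) e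

/-- the commutators `[x_i, x_j]`, for all `i, j` with `t i * t j = t j * t i` -/
def comRels {n : ℕ} {G : GrpCat.{0}} (t : Fin n → G) : Set (FreeGroup (Fin n)) :=
  {w | ∃ i j : Fin n, t i * t j = t j * t i ∧
    w = FreeGroup.of i * FreeGroup.of j * (FreeGroup.of j * FreeGroup.of i)⁻¹}

/-- the right-angled Artin group of the commutation graph of `t` -/
abbrev Raag {n : ℕ} {G : GrpCat.{0}} (t : Fin n → G) : GrpCat.{0} := PG n (comRels t)

/-- the homomorphism `x_i ↦ t_i` -/
def raagMap {n : ℕ} {G : GrpCat.{0}} (t : Fin n → G) : Raag t ⟶ G :=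
  GrpCat.ofHom (QuotientGroup.lift (Subgroup.normalClosure (comRels t)) (FreeGroup.lift t)
    (Subgroup.normalClosure_le_normal (N := (FreeGroup.lift t).ker) (by
      rintro w ⟨i, j, h, rfl⟩
      rw [SetLike.mem_coe, MonoidHom.mem_ker]
      simp [h])))

/-- the only coincidences among the products of at most two elements `t_i` are commutations -/
def OnlyCommutations {n : ℕ} {G : GrpCat.{0}} (t : Fin n → G) : Prop :=
  (∀ i, t i ≠ 1) ∧ Function.Injective t ∧ (∀ i j, t i * t j ≠ 1) ∧ (∀ i j k, t i * t j ≠ t k) ∧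
    ∀ i j k l, t i * t j = t k * t l → (i = k ∧ j = l) ∨ (i = l ∧ j = k)

/-- RAG: if the only coincidences are commutations then the class comes from a right-angled Artin
group. (`φ (t i * t j) = x_i x_j`, `φ (t i) = x_i`, `φ 1 = 1`, and 1 for the other elements.) -/
def S_RAG : Prop := S_PUSH →
  ∀ (R : Type) [Ring R] (m n : ℕ) (G : GrpCat.{0}) (t : Fin n → G), OnlyCommutations t →
    ∀ e : Idem (MonoidAlgebra R ((EF m).obj G)), SuppIn (insert 1 (Set.range t)) e →
      Induced R m (raagMap t) e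

/-- SUBG: a class with support in a subgroup comes from the subgroup (`S_PUSH` with `P = H`,
`φ g = g` for `g ∈ H`, and 1 for the other elements). -/
def S_SUBG : Prop := S_PUSH →
  ∀ (R : Type) [Ring R] (m : ℕ) (G : GrpCat.{0}) (H : Subgroup G)
    (e : Idem (MonoidAlgebra R ((EF m).obj G))), SuppIn (H : Set G) e →
      Induced R m (GrpCat.ofHom H.subtype : GrpCat.of H ⟶ G) e

/-- TWO: two elements of a torsion-free group commute, or have the same squares, or their products
have no coincidences. -/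
def S_TWO : Prop :=
  ∀ (G : GrpCat.{0}), TFr G → ∀ t : Fin 2 → G, t 0 * t 1 = t 1 * t 0 ∨ t 0 ^ 2 = t 1 ^ 2 ∨
    (OnlyCommutations t ∧ t 0 * t 1 ≠ t 1 * t 0)

end Pool.Agent.L0h7.SS
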